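import Mathlib
import Pool.Agent.H753R2.FR.T_D6b

/-!
# Real flow roots are bounded

There is a real constant `C` such that `F(G, q) > 0` for every bridgeless multigraph `G` and every
real `q ≥ C`.
-/

set_option autoImplicit false

namespace Pool.Agent.Results.MP_b6f1e0_co.RealRootsBounded

/-- There is a real constant `C` such that for every finite multigraph (loops and parallel edges
allowed) without bridges, with `n` vertices and `m` edges, the flow polynomial is positive at every
real `q ≥ C`. -/
theorem result :
    ∃ C : ℝ, ∀ (n m : ℕ) (ends : Fin m → Fin n × Fin n),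
    (∀ e : Fin m,
      Nat.card (SimpleGraph.fromRel
          (fun u v : Fin n => ∃ f ∈ (Finset.univ : Finset (Fin m)).erase e, ends f = (u, v))).ConnectedComponent
        = Nat.card (SimpleGraph.fromRel
          (fun u v : Fin n => ∃ f : Fin m, ends f = (u, v))).ConnectedComponent) →
    ∀ q : ℝ, C ≤ q →
      0 < ∑ A ∈ (Finset.univ : Finset (Fin m)).powerset,
        (-1 : ℝ) ^ (m - A.card) *
          q ^ (A.card + Nat.card (SimpleGraph.fromRel
                (fun u v : Fin n => ∃ f ∈ A, ends f = (u, v))).ConnectedComponent - n) :=
  Pool.Agent.H753R2.FR.D6b.flow_pos_ends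

end Pool.Agent.Results.MP_b6f1e0_co.RealRootsBounded
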